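import Pool.Agent.helper69.MU.Uni
set_option autoImplicit false
namespace Pool.Agent.helper47.MU
open Finset Filter MeasureTheory Pool.Agent.helper69.MU

/-- the finite cylinder around a point is open -/
theorem isOpen_cyl {X : ℕ → Type} [∀ n, TopologicalSpace (X n)] [∀ n, DiscreteTopology (X n)]
    (u : ∀ n, X n) (m : ℕ) : IsOpen {x : ∀ n, X n | ∀ l, l < m → x l = u l} := by
  have h : {x : ∀ n, X n | ∀ l, l < m → x l = u l}
      = ⋂ l ∈ Finset.range m, (fun x : ∀ n, X n => x l) ⁻¹' {u l} := by
    ext x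
    simp
  rw [h]
  exact isOpen_biInter_finset fun l _ => (isOpen_discrete _).preimage (continuous_apply l)

/-- every open set contains a finite cylinder around each of its points -/
theorem exists_cyl_subset {X : ℕ → Type} [∀ n, TopologicalSpace (X n)]
    (O : Set (∀ n, X n)) (hO : IsOpen O) (u : ∀ n, X n) (hu : u ∈ O) :
    ∃ m, {x : ∀ n, X n | ∀ l, l < m → x l = u l} ⊆ O := by
  obtain ⟨I, w, hw, hsub⟩ := isOpen_pi_iff.1 hO u hu
  refine ⟨I.sup id + 1, fun x hx => hsub fun a ha => ?_⟩
  have h1 : a < I.sup id + 1 := Nat.lt_succ_of_le (Finset.le_sup (f := id) ha)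
  rw [hx a h1]
  exact (hw a ha).2

theorem exists_rho_baire {X : ℕ → Type} [∀ n, Finite (X n)] [∀ n, Nonempty (X n)]
    [∀ n, TopologicalSpace (X n)] [∀ n, DiscreteTopology (X n)] (C : Set (∀ n, X n))
    (hC : BaireMeasurableSet C) (hC0 : ¬ IsMeagre C) :
    ∃ ρ : (∀ n, X n) → ∀ n, X n, Continuous ρ ∧ IsOpenMap ρ ∧
      (∃ m, ∀ x l, m ≤ l → ρ x l = x l) ∧ ρ ⁻¹' C ∈ residual (∀ n, X n) := by
  classical
  obtain ⟨O, hO, hCO⟩ := hC.residualEq_isOpen
  have hne : O.Nonempty := by
    by_contra h
    rw [Set.not_nonempty_iff_eq_empty] at h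
    apply hC0
    change Cᶜ ∈ residual _
    filter_upwards [hCO] with x hx hxC
    have h2 : O x := (iff_of_eq hx).1 hxC
    have h3 : x ∈ O := h2
    rw [h] at h3
    exact h3
  obtain ⟨u, hu⟩ := hne
  obtain ⟨m, hm⟩ := exists_cyl_subset O hO u hu
  let ρ : (∀ n, X n) → ∀ n, X n := fun x l => if l < m then u l else x l
  have hcont : ∀ v : ∀ n, X n, Continuous fun (x : ∀ n, X n) l => if l < m then v l else x l := by
    intro v
    refine continuous_pi fun l => ?_
    by_cases h : l < m
    · simp only [h, if_true]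
      exact continuous_const
    · simp only [h, if_false]
      exact continuous_apply l
  have hρc : Continuous ρ := hcont u
  have hρo : IsOpenMap ρ := by
    intro V hV
    rw [isOpen_iff_forall_mem_open]
    rintro y ⟨x, hx, rfl⟩
    refine ⟨{y | ∀ l, l < m → y l = u l} ∩
      (fun (z : ∀ n, X n) l => if l < m then x l else z l) ⁻¹' V, ?_,
      (isOpen_cyl u m).inter (hV.preimage (hcont x)), ?_, ?_⟩
    · rintro z ⟨hz1, hz2⟩
      refine ⟨_, hz2, ?_⟩
      funext l
      by_cases h : l < m
      · simp only [ρ, h, if_true]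
        exact (hz1 l h).symm
      · simp only [ρ, h, if_false]
    · intro l hl
      simp only [ρ, hl, if_true]
    · have h : (fun l => if l < m then x l else ρ x l) = x := by
        funext l
        by_cases h : l < m
        · simp only [h, if_true]
        · simp only [ρ, h, if_false]
      change (fun l => if l < m then x l else ρ x l) ∈ V
      rw [h]
      exact hx
  refine ⟨ρ, hρc, hρo, ⟨m, fun x l hl => ?_⟩, ?_⟩
  · have h : ¬ l < m := by omega
    simp only [ρ, h, if_false]
  · have h1 : {x | x ∈ O → x ∈ C} ∈ residual (∀ n, X n) := by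
      filter_upwards [hCO] with x hx hxO
      exact (iff_of_eq hx).2 hxO
    have h2 : ρ ⁻¹' {x | x ∈ O → x ∈ C} ∈ residual (∀ n, X n) :=
      tendsto_residual_of_isOpenMap hρc hρo h1
    filter_upwards [h2] with x hx
    refine hx (hm fun l hl => ?_)
    simp only [ρ, hl, if_true]

end Pool.Agent.helper47.MU
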